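import Pool.Agent.P.MP_6145c0_co.Defs

/-! Chains of closed discs in the plane. -/

set_option autoImplicit false

open Set

namespace Pool.Agent.P.MP_6145c0_co

/-- `C` is a finite chain of closed topological discs: consecutive discs share exactly one point,
the other pairs are disjoint. -/
def IsDiscChain (C : Set E) : Prop :=
  ∃ (N : ℕ) (K : ℕ → Set E), C = (⋃ i < N, K i) ∧
    (∀ i < N, ∃ φ : E ≃ₜ E, φ '' K i = Metric.closedBall 0 1) ∧
    (∀ i, i + 1 < N → ∃ p, K i ∩ K (i + 1) = {p}) ∧
    ∀ i j, i + 2 ≤ j → j < N → Disjoint (K i) (K j)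

end Pool.Agent.P.MP_6145c0_co
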