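import Pool.Agent.P.MP_6145c0_co.Main
import Pool.Agent.P.MP_6145c0_co.ChainDefs

/-! Cells between consecutive cubic arcs in vertical strips of width one. -/

set_option autoImplicit false

open Set Metric Filter Topology

noncomputable section

namespace Pool.Agent.P.MP_6145c0_co.Chain

/-- the point with given coordinates -/
def pq (x y : ℝ) : E := !₂[x, y]

@[simp] lemma pq0 (x y : ℝ) : pq x y 0 = x := rfl
@[simp] lemma pq1 (x y : ℝ) : pq x y 1 = y := rfl

lemma pq_eta (p : E) : pq (p 0) (p 1) = p := by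
  ext i; fin_cases i <;> rfl

lemma ext2 {p q : E} (h0 : p 0 = q 0) (h1 : p 1 = q 1) : p = q := by
  rw [← pq_eta p, ← pq_eta q, h0, h1]

lemma cont_pq {X : Type} [TopologicalSpace X] {f g : X → ℝ} (hf : Continuous f)
    (hg : Continuous g) : Continuous fun x => pq (f x) (g x) := by
  unfold pq
  refine (PiLp.continuous_toLp 2 _).comp (continuous_pi fun i => ?_)
  fin_cases i
  · exact hf
  · exact hg

lemma cont0 : Continuous fun p : E => p 0 := by fun_prop
lemma cont1 : Continuous fun p : E => p 1 := by fun_prop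

lemma abs_sub_le_dist (p q : E) (i : Fin 2) : |p i - q i| ≤ dist p q := by
  have := PiLp.norm_apply_le (p - q) i
  rw [dist_eq_norm]
  simpa using this

/-- the cubic profile -/
def cub (u : ℝ) : ℝ := u - u ^ 3

lemma cont_cub : Continuous cub := by unfold cub; fun_prop

lemma cub_zero : cub 0 = 0 := by simp [cub]
lemma cub_one : cub 1 = 0 := by simp [cub]

lemma cub_nonneg {u : ℝ} (h0 : 0 ≤ u) (h1 : u ≤ 1) : 0 ≤ cub u := by
  have : cub u = u * (1 - u) * (1 + u) := by unfold cub; ring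
  rw [this]
  have : 0 ≤ 1 - u := by linarith
  positivity

lemma cub_pos {u : ℝ} (h0 : 0 < u) (h1 : u < 1) : 0 < cub u := by
  have : cub u = u * (1 - u) * (1 + u) := by unfold cub; ring
  rw [this]
  have : 0 < 1 - u := by linarith
  positivity

lemma cub_le {u : ℝ} (h0 : 0 ≤ u) : cub u ≤ 1 / 2 := by
  have : 0 ≤ (u - 3 / 5) ^ 2 * (u + 6 / 5) := by positivity
  unfold cub
  nlinarith

lemma dm {L : ℤ} (r : ℤ) {i : ℤ} (h0 : 0 ≤ i) (h1 : i < L) :
    (r * L + i) / L = r ∧ (r * L + i) % L = i := by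
  have hL : 0 < L := by omega
  exact (Int.ediv_emod_unique hL).2 ⟨by ring, h0, h1⟩

lemma dm_ex {L : ℤ} (hL : 0 < L) (z : ℤ) : ∃ r i : ℤ, 0 ≤ i ∧ i < L ∧ z = r * L + i :=
  ⟨z / L, z % L, Int.emod_nonneg _ hL.ne', Int.emod_lt_of_pos _ hL,
    (Int.ediv_mul_add_emod z L).symm⟩

/-- coefficient of the arc number `z` -/
def kap (L z : ℤ) : ℝ := (((z % L : ℤ) : ℝ) + 1) / L

/-- the arc number `z` -/
def F (L z : ℤ) (u : ℝ) : ℝ := ((z / L : ℤ) : ℝ) + kap L z * cub u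

lemma contF (L z : ℤ) : Continuous (F L z) := by
  unfold F
  exact continuous_const.add (continuous_const.mul cont_cub)

lemma F_eq {L : ℤ} (r : ℤ) {i : ℤ} (h0 : 0 ≤ i) (h1 : i < L) (u : ℝ) :
    F L (r * L + i) u = r + (i + 1) / L * cub u := by
  simp only [F, kap, (dm r h0 h1).1, (dm r h0 h1).2]

lemma kap_pos {L : ℤ} (hL : 0 < L) (z : ℤ) : 0 < kap L z := by
  have h1 : (0 : ℝ) ≤ (z % L : ℤ) := by exact_mod_cast Int.emod_nonneg _ hL.ne'
  have h2 : (0 : ℝ) < L := by exact_mod_cast hL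
  unfold kap
  positivity

lemma kap_le {L : ℤ} (hL : 0 < L) (z : ℤ) : kap L z ≤ 1 := by
  have h1 : ((z % L : ℤ) : ℝ) + 1 ≤ L := by exact_mod_cast Int.emod_lt_of_pos z hL
  have h2 : (0 : ℝ) < L := by exact_mod_cast hL
  unfold kap
  rwa [div_le_one h2]

lemma kap_inj {L : ℤ} (hL : 0 < L) {z w : ℤ} (h : kap L z = kap L w) : z % L = w % L := by
  have h2 : (0 : ℝ) < L := by exact_mod_cast hL
  unfold kap at h
  rw [div_left_inj' h2.ne', add_left_inj] at h
  exact_mod_cast h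

lemma F_add {L : ℤ} (hL : 0 < L) (z b : ℤ) (u : ℝ) : F L (z + b * L) u = F L z u + b := by
  simp only [F, kap, Int.add_mul_ediv_right _ _ hL.ne', Int.add_mul_emod_self_right]
  push_cast
  ring

lemma F_lens {L : ℤ} (r : ℤ) {i : ℤ} (h0 : 0 ≤ i) (h1 : i + 1 < L) (u : ℝ) :
    F L (r * L + i + 1) u = F L (r * L + i) u + 1 / L * cub u := by
  rw [add_assoc, F_eq r (by omega) h1, F_eq r h0 (by omega)]
  push_cast
  ring

lemma F_big {L : ℤ} (r : ℤ) {i : ℤ} (h0 : 0 ≤ i) (h1 : i + 1 = L) (u : ℝ) :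
    F L (r * L + i + 1) u = F L (r * L + i) u + (1 - i / L * cub u) := by
  have e : r * L + i + 1 = (r + 1) * L + 0 := by rw [add_assoc, h1]; ring
  have h2 : (L : ℝ) = i + 1 := by exact_mod_cast h1.symm
  have h3 : (0 : ℝ) ≤ i := by exact_mod_cast h0
  rw [e, F_eq (r + 1) le_rfl (by omega), F_eq r h0 (by omega), h2]
  push_cast
  field_simp
  ring

lemma big_ge {L i : ℤ} (h0 : 0 ≤ i) (h1 : i + 1 = L) {u : ℝ} (hu0 : 0 ≤ u) (hu1 : u ≤ 1) :
    1 / 2 ≤ 1 - i / L * cub u := by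
  have h2 : (L : ℝ) = i + 1 := by exact_mod_cast h1.symm
  have h3 : (0 : ℝ) ≤ i := by exact_mod_cast h0
  have h4 : (i : ℝ) / L ≤ 1 := by rw [h2, div_le_one (by linarith)]; linarith
  have := mul_le_mul h4 (cub_le hu0) (cub_nonneg hu0 hu1) zero_le_one
  linarith

lemma F_lt_succ {L : ℤ} (hL : 0 < L) (z : ℤ) {u : ℝ} (h0 : 0 < u) (h1 : u < 1) :
    F L z u < F L (z + 1) u := by
  obtain ⟨r, i, hi0, hi1, rfl⟩ := dm_ex hL z
  have h2 : (0 : ℝ) < L := by exact_mod_cast hL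
  rcases lt_or_eq_of_le (show i + 1 ≤ L by omega) with h | h
  · rw [F_lens r hi0 h]
    have := cub_pos h0 h1
    have : 0 < 1 / (L : ℝ) * cub u := by positivity
    linarith
  · rw [F_big r hi0 h]
    linarith [big_ge hi0 h h0.le h1.le]

lemma F_le_succ {L : ℤ} (hL : 0 < L) (z : ℤ) {u : ℝ} (h0 : 0 ≤ u) (h1 : u ≤ 1) :
    F L z u ≤ F L (z + 1) u := by
  obtain ⟨r, i, hi0, hi1, rfl⟩ := dm_ex hL z
  have h2 : (0 : ℝ) < L := by exact_mod_cast hL
  rcases lt_or_eq_of_le (show i + 1 ≤ L by omega) with h | h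
  · rw [F_lens r hi0 h]
    have := cub_nonneg h0 h1
    have : 0 ≤ 1 / (L : ℝ) * cub u := by positivity
    linarith
  · rw [F_big r hi0 h]
    linarith [big_ge hi0 h h0 h1]

lemma F_mono {L : ℤ} (hL : 0 < L) {u : ℝ} (h0 : 0 ≤ u) (h1 : u ≤ 1) {z w : ℤ} (h : z ≤ w) :
    F L z u ≤ F L w u :=
  monotone_int_of_le_succ (f := fun z => F L z u) (fun z => F_le_succ hL z h0 h1) h

lemma F_ge {L : ℤ} (hL : 0 < L) (z : ℤ) {u : ℝ} (h0 : 0 ≤ u) (h1 : u ≤ 1) :
    ((z / L : ℤ) : ℝ) ≤ F L z u := by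
  have := mul_nonneg (kap_pos hL z).le (cub_nonneg h0 h1)
  unfold F
  linarith

lemma F_le {L : ℤ} (hL : 0 < L) (z : ℤ) {u : ℝ} (h0 : 0 ≤ u) (h1 : u ≤ 1) :
    F L z u ≤ (z / L : ℤ) + 1 / 2 := by
  have := mul_le_mul (kap_le hL z) (cub_le h0) (cub_nonneg h0 h1) zero_le_one
  unfold F
  linarith

/-- open cell -/
def Oc (L n z : ℤ) : Set E :=
  {p | (n : ℝ) < p 0 ∧ p 0 < n + 1 ∧ F L z (p 0 - n) < p 1 ∧ p 1 < F L (z + 1) (p 0 - n)}

/-- closed cell -/
def Kc (L n z : ℤ) : Set E :=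
  {p | (n : ℝ) ≤ p 0 ∧ p 0 ≤ n + 1 ∧ F L z (p 0 - n) ≤ p 1 ∧ p 1 ≤ F L (z + 1) (p 0 - n)}

lemma contF0 (L n z : ℤ) : Continuous fun p : E => F L z (p 0 - n) :=
  (contF L z).comp (cont0.sub continuous_const)

lemma Oc_open (L n z : ℤ) : IsOpen (Oc L n z) :=
  (isOpen_lt continuous_const cont0).inter ((isOpen_lt cont0 continuous_const).inter
    ((isOpen_lt (contF0 L n z) cont1).inter (isOpen_lt cont1 (contF0 L n _))))

lemma Kc_closed (L n z : ℤ) : IsClosed (Kc L n z) :=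
  (isClosed_le continuous_const cont0).inter ((isClosed_le cont0 continuous_const).inter
    ((isClosed_le (contF0 L n z) cont1).inter (isClosed_le cont1 (contF0 L n _))))

lemma Oc_sub (L n z : ℤ) : Oc L n z ⊆ Kc L n z := fun _ h =>
  ⟨h.1.le, h.2.1.le, h.2.2.1.le, h.2.2.2.le⟩

/-- parametrisation of a cell by the unit square -/
def par (L n z : ℤ) (w : ℝ × ℝ) : E :=
  pq (n + w.1) (F L z w.1 + w.2 * (F L (z + 1) w.1 - F L z w.1))

lemma cont_par (L n z : ℤ) : Continuous (par L n z) :=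
  cont_pq (continuous_const.add continuous_fst) (((contF L z).comp continuous_fst).add
    (continuous_snd.mul (((contF L _).comp continuous_fst).sub ((contF L z).comp continuous_fst))))

lemma Kc_sub_par (L n z : ℤ) : Kc L n z ⊆ par L n z '' (Icc 0 1 ×ˢ Icc 0 1) := by
  rintro p ⟨h1, h2, h3, h4⟩
  rcases eq_or_lt_of_le (h3.trans h4) with h | h
  · refine ⟨(p 0 - n, 0), ⟨⟨by simpa using h1, by simp only; linarith⟩, le_rfl, zero_le_one⟩,
      ext2 (by simp [par]) ?_⟩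
    simp only [par, pq1]
    linarith
  · have h5 := sub_pos.2 h
    refine ⟨(p 0 - n, (p 1 - F L z (p 0 - n)) / (F L (z + 1) (p 0 - n) - F L z (p 0 - n))),
      ⟨⟨by simpa using h1, by simp only; linarith⟩, div_nonneg (by linarith) h5.le,
        (div_le_one h5).2 (by linarith)⟩, ext2 (by simp [par]) ?_⟩
    simp only [par, pq1]
    field_simp
    ring

lemma par_sub_Oc {L : ℤ} (hL : 0 < L) (n z : ℤ) :
    par L n z '' (Ioo 0 1 ×ˢ Ioo 0 1) ⊆ Oc L n z := by
  rintro _ ⟨⟨u, v⟩, ⟨⟨h1, h2⟩, h3, h4⟩, rfl⟩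
  simp only at h1 h2 h3 h4
  have h5 := sub_pos.2 (F_lt_succ hL z h1 h2)
  simp only [Oc, par, mem_ofPred_eq, pq0, pq1, add_sub_cancel_left]
  refine ⟨by linarith, by linarith, by nlinarith, by nlinarith⟩

lemma closure_Oc {L : ℤ} (hL : 0 < L) (n z : ℤ) : closure (Oc L n z) = Kc L n z := by
  refine (closure_minimal (Oc_sub L n z) (Kc_closed L n z)).antisymm
    ((Kc_sub_par L n z).trans ?_)
  rw [← closure_Ioo zero_ne_one, ← closure_prod_eq]
  exact (image_closure_subset_closure_image (cont_par L n z)).trans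
    (closure_mono (par_sub_Oc hL n z))

lemma Oc_nonempty {L : ℤ} (hL : 0 < L) (n z : ℤ) : (Oc L n z).Nonempty :=
  ⟨_, par_sub_Oc hL n z ⟨(1 / 2, 1 / 2), ⟨by norm_num, by norm_num⟩, rfl⟩⟩

lemma Kc_eq_par {L : ℤ} (hL : 0 < L) (n z : ℤ) :
    Kc L n z = par L n z '' (Icc 0 1 ×ˢ Icc 0 1) := by
  refine (Kc_sub_par L n z).antisymm ?_
  rw [← closure_Oc hL, ← closure_Ioo zero_ne_one, ← closure_prod_eq]
  exact (image_closure_subset_closure_image (cont_par L n z)).trans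
    (closure_mono (par_sub_Oc hL n z))

lemma Kc_compact {L : ℤ} (hL : 0 < L) (n z : ℤ) : IsCompact (Kc L n z) := by
  rw [Kc_eq_par hL]
  exact (isCompact_Icc.prod isCompact_Icc).image (cont_par L n z)

lemma Kc_connected {L : ℤ} (hL : 0 < L) (n z : ℤ) : IsConnected (Kc L n z) := by
  rw [Kc_eq_par hL]
  exact ((isConnected_Icc zero_le_one).prod (isConnected_Icc zero_le_one)).image _
    (cont_par L n z).continuousOn

lemma col_eq {x : ℝ} {n m : ℤ} (h1 : (n : ℝ) < x) (h2 : x < n + 1) (h3 : (m : ℝ) ≤ x)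
    (h4 : x ≤ m + 1) : m = n := by
  have a : (m : ℝ) < n + 1 := by linarith
  have b : (n : ℝ) < m + 1 := by linarith
  have a' : m < n + 1 := by exact_mod_cast a
  have b' : n < m + 1 := by exact_mod_cast b
  omega

lemma cell_eq {L : ℤ} (hL : 0 < L) {n z m w : ℤ} {p : E} (h : p ∈ Oc L n z) (h' : p ∈ Kc L m w) :
    m = n ∧ w = z := by
  obtain rfl := col_eq h.1 h.2.1 h'.1 h'.2.1
  refine ⟨rfl, ?_⟩
  have u0 : 0 ≤ p 0 - m := by linarith [h.1]
  have u1 : p 0 - m ≤ 1 := by linarith [h.2.1]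
  rcases lt_trichotomy w z with h1 | h1 | h1
  · linarith [F_mono hL u0 u1 (show w + 1 ≤ z by omega), h.2.2.1, h'.2.2.2]
  · exact h1
  · linarith [F_mono hL u0 u1 (show z + 1 ≤ w by omega), h.2.2.2, h'.2.2.1]

lemma exists_cell {L : ℤ} (hL : 0 < L) (p : E) : ∃ n z, p ∈ Kc L n z := by
  have u0 : 0 ≤ p 0 - (⌊p 0⌋ : ℤ) := by linarith [Int.floor_le (p 0)]
  have u1 : p 0 - (⌊p 0⌋ : ℤ) ≤ 1 := by linarith [Int.lt_floor_add_one (p 0)]
  obtain ⟨z, h1, h2⟩ := Int.exists_greatest_of_bdd (P := fun z => F L z (p 0 - (⌊p 0⌋ : ℤ)) ≤ p 1)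
    ⟨(⌊p 1⌋ + 1) * L, fun z hz => by
      by_contra hc
      have h3 := F_mono hL u0 u1 (not_le.1 hc).le
      have h4 := F_ge hL ((⌊p 1⌋ + 1) * L) u0 u1
      rw [Int.mul_ediv_cancel _ hL.ne'] at h4
      push_cast at h4
      linarith [Int.lt_floor_add_one (p 1)]⟩
    ⟨(⌊p 1⌋ - 1) * L, by
      have h4 := F_le hL ((⌊p 1⌋ - 1) * L) u0 u1
      rw [Int.mul_ediv_cancel _ hL.ne'] at h4
      push_cast at h4
      linarith [Int.floor_le (p 1)]⟩
  refine ⟨⌊p 0⌋, z, by linarith, by linarith, h1, ?_⟩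
  by_contra hc
  have := h2 (z + 1) (not_le.1 hc).le
  omega

lemma mem_Kc_add {L : ℤ} (hL : 0 < L) (n z a b : ℤ) (p : E) :
    p + pq a b ∈ Kc L (n + a) (z + b * L) ↔ p ∈ Kc L n z := by
  have e : z + b * L + 1 = z + 1 + b * L := by ring
  have e2 : p 0 + a - ((n : ℝ) + a) = p 0 - n := by ring
  simp only [Kc, mem_ofPred_eq, PiLp.add_apply, pq0, pq1, e, F_add hL, Int.cast_add, e2]
  constructor <;> rintro ⟨h1, h2, h3, h4⟩ <;> exact ⟨by linarith, by linarith, by linarith, by linarith⟩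

/-- row bounds in a closed cell -/
lemma row_bd {L : ℤ} (r : ℤ) {i : ℤ} (h0 : 0 ≤ i) (h1 : i < L) {n : ℤ} {p : E}
    (h : p ∈ Kc L n (r * L + i)) : (r : ℝ) ≤ p 1 ∧ p 1 ≤ r + 3 / 2 := by
  have hL : 0 < L := by omega
  have u0 : 0 ≤ p 0 - n := by linarith [h.1]
  have u1 : p 0 - n ≤ 1 := by linarith [h.2.1]
  have a := F_ge hL (r * L + i) u0 u1
  have b := F_mono hL u0 u1 (show r * L + i + 1 ≤ (r + 1) * L by linarith)
  have c := F_le hL ((r + 1) * L) u0 u1
  rw [(dm r h0 h1).1] at a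
  rw [Int.mul_ediv_cancel _ hL.ne'] at c
  push_cast at c
  exact ⟨by linarith [h.2.2.1], by linarith [h.2.2.2]⟩

lemma disc_aux (n : ℝ) {lo q s : ℝ → ℝ} (hlo : Continuous lo) (hq : Continuous q)
    (hq0 : ∀ u, 0 < q u) (hs : Continuous s) (hc : ConcaveOn ℝ (Icc 0 1) s)
    (hs0 : 0 < s (1 / 2)) (hs1 : ∀ u ∈ Icc (0 : ℝ) 1, s u ≤ 1) :
    ∃ φ : E ≃ₜ E, φ '' {p | n ≤ p 0 ∧ p 0 ≤ n + 1 ∧ lo (p 0 - n) ≤ p 1 ∧
      p 1 ≤ lo (p 0 - n) + q (p 0 - n) * s (p 0 - n)} = closedBall 0 1 := by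
  let Φ : E ≃ₜ E :=
    { toFun := fun p => pq (p 0 - n) ((p 1 - lo (p 0 - n)) / q (p 0 - n))
      invFun := fun p => pq (n + p 0) (lo (p 0) + q (p 0) * p 1)
      left_inv := fun p => ext2 (by simp) (by
        have := (hq0 (p 0 - n)).ne'
        simp only [pq0, pq1]; field_simp; ring)
      right_inv := fun p => ext2 (by simp) (by
        have := (hq0 (p 0)).ne'
        simp only [pq0, pq1, add_sub_cancel_left]; field_simp)
      continuous_toFun := cont_pq (cont0.sub continuous_const)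
        ((cont1.sub (hlo.comp (cont0.sub continuous_const))).div
          (hq.comp (cont0.sub continuous_const)) fun p => (hq0 _).ne')
      continuous_invFun := cont_pq (continuous_const.add cont0)
        ((hlo.comp cont0).add ((hq.comp cont0).mul cont1)) }
  let S : Set E := {p | 0 ≤ p 0 ∧ p 0 ≤ 1 ∧ 0 ≤ p 1 ∧ p 1 ≤ s (p 0)}
  have hS : Convex ℝ S := by
    rintro x ⟨x1, x2, x3, x4⟩ y ⟨y1, y2, y3, y4⟩ a b ha hb hab
    have := hc.2 ⟨x1, x2⟩ ⟨y1, y2⟩ ha hb hab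
    simp only [S, mem_ofPred_eq, PiLp.add_apply, PiLp.smul_apply, smul_eq_mul] at this ⊢
    exact ⟨by positivity, by nlinarith, by positivity, by nlinarith⟩
  have hcl : IsClosed S :=
    (isClosed_le continuous_const cont0).inter ((isClosed_le cont0 continuous_const).inter
      ((isClosed_le continuous_const cont1).inter (isClosed_le cont1 (hs.comp cont0))))
  have hne : (interior S).Nonempty := by
    refine ⟨pq (1 / 2) (s (1 / 2) / 2), interior_maximal (s := S)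
      (t := {p : E | 0 < p 0 ∧ p 0 < 1 ∧ 0 < p 1 ∧ p 1 < s (p 0)})
      (fun p h => And.intro h.1.le ⟨h.2.1.le, h.2.2.1.le, h.2.2.2.le⟩)
      ((isOpen_lt continuous_const cont0).inter ((isOpen_lt cont0 continuous_const).inter
      ((isOpen_lt continuous_const cont1).inter (isOpen_lt cont1 (hs.comp cont0))))) ?_⟩
    simp only [mem_ofPred_eq, pq0, pq1]
    exact ⟨by norm_num, by norm_num, by linarith, by linarith⟩
  have hb : Bornology.IsBounded S := by
    refine (isBounded_closedBall (x := (0 : E)) (r := 2)).subset fun p h => ?_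
    have := hs1 _ ⟨h.1, h.2.1⟩
    rw [mem_closedBall_zero_iff, EuclideanSpace.norm_eq, Real.sqrt_le_left (by norm_num),
      Fin.sum_univ_two, Real.norm_eq_abs, Real.norm_eq_abs, sq_abs, sq_abs]
    nlinarith [h.1, h.2.1, h.2.2.1, h.2.2.2]
  obtain ⟨ψ, -, h2, -⟩ := exists_homeomorph_image_interior_closure_frontier_eq_unitBall hS hne hb
  refine ⟨Φ.trans ψ, ?_⟩
  rw [← h2, hcl.closure_eq, show ⇑(Φ.trans ψ) = ψ ∘ Φ from rfl, image_comp]
  congr 1
  rw [Homeomorph.image_eq_preimage_symm]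
  ext p
  change (n ≤ n + p 0 ∧ n + p 0 ≤ n + 1 ∧ lo (n + p 0 - n) ≤ lo (p 0) + q (p 0) * p 1 ∧
    lo (p 0) + q (p 0) * p 1 ≤ lo (n + p 0 - n) + q (n + p 0 - n) * s (n + p 0 - n)) ↔ _
  have := hq0 (p 0)
  simp only [add_sub_cancel_left, S, mem_ofPred_eq, le_add_iff_nonneg_right, add_le_add_iff_left,
    mul_le_mul_iff_right₀ this, mul_nonneg_iff_of_pos_left this]

lemma concave_cub : ConcaveOn ℝ (Icc 0 1) cub := by
  refine ⟨convex_Icc 0 1, fun x hx y hy a b ha hb hab => ?_⟩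
  obtain rfl : b = 1 - a := by linarith
  have h : cub (a * x + (1 - a) * y) - (a * cub x + (1 - a) * cub y) =
      a * (1 - a) * (x - y) ^ 2 * ((1 + a) * x + (2 - a) * y) := by unfold cub; ring
  have h1 := hx.1
  have h2 := hy.1
  have h3 : 0 ≤ 2 - a := by linarith
  have : 0 ≤ a * (1 - a) * (x - y) ^ 2 * ((1 + a) * x + (2 - a) * y) := by positivity
  simp only [smul_eq_mul]
  linarith

lemma Kc_disc {L : ℤ} (hL : 0 < L) (n z : ℤ) : ∃ φ : E ≃ₜ E, φ '' Kc L n z = closedBall 0 1 := by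
  obtain ⟨r, i, hi0, hi1, rfl⟩ := dm_ex hL z
  have h2 : (0 : ℝ) < L := by exact_mod_cast hL
  rcases lt_or_eq_of_le (show i + 1 ≤ L by omega) with h | h
  · obtain ⟨φ, hφ⟩ := disc_aux n (contF L (r * L + i)) (q := fun _ => 1 / L) continuous_const
      (fun _ => by positivity) cont_cub concave_cub (cub_pos (by norm_num) (by norm_num))
      fun u hu => by linarith [cub_le hu.1]
    exact ⟨φ, by simpa only [Kc, F_lens r hi0 h] using hφ⟩
  · obtain ⟨φ, hφ⟩ := disc_aux n (contF L (r * L + i))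
      (q := fun u => max (1 / 2) (1 - i / L * cub u)) (s := fun _ => 1)
      (continuous_const.max (continuous_const.sub (continuous_const.mul cont_cub)))
      (fun _ => lt_max_of_lt_left (by norm_num)) continuous_const
      (concaveOn_const 1 (convex_Icc 0 1)) one_pos fun _ _ => le_rfl
    refine ⟨φ, hφ ▸ congrArg _ ?_⟩
    ext p
    simp only [Kc, F_big r hi0 h, mem_ofPred_eq, mul_one]
    refine and_congr_right fun a => and_congr_right fun b => ?_
    rw [max_eq_right (big_ge hi0 h (by linarith) (by linarith))]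

end Pool.Agent.P.MP_6145c0_co.Chain
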