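import Mathlib

/-! Definitions for MP_6145c0_co (Heesch's problem). -/

set_option autoImplicit false

open Set

namespace Pool.Agent.P.MP_6145c0_co

/-- The Euclidean plane. -/
abbrev E : Type := EuclideanSpace ℝ (Fin 2)

/-- A nonempty compact set equal to the closure of its interior. -/
def IsBody (C : Set E) : Prop := C.Nonempty ∧ IsCompact C ∧ C = closure (interior C)

/-- A family of congruent copies of `C` with pairwise disjoint interiors. -/
def IsPacking (C : Set E) (P : Set (Set E)) : Prop :=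
  (∀ D ∈ P, ∃ f : E ≃ᵢ E, D = f '' C) ∧ P.Pairwise fun A B => Disjoint (interior A) (interior B)

/-- `C` tiles the plane by congruent copies. -/
def Tiles (C : Set E) : Prop := ∃ P, IsPacking C P ∧ ⋃₀ P = univ

/-- `C` is surrounded `k` times. -/
def Surrounded (C : Set E) (k : ℕ) : Prop :=
  ∃ P : ℕ → Set (Set E), P 0 = {C} ∧ (∀ i ≤ k, (P i).Finite ∧ IsPacking C (P i)) ∧
    ∀ i < k, P i ⊂ P (i + 1) ∧ ∀ D ∈ P i, Disjoint (closure (⋃₀ P (i + 1))ᶜ) D

end Pool.Agent.P.MP_6145c0_co
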