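import Pool.Agent.P.MP_6145c0_co.Defs

/-! Fish-scale fundamental domains of radius one and two, far apart. -/

set_option autoImplicit false

open Set Metric Filter Topology

noncomputable section

namespace Pool.Agent.P.MP_6145c0_co

/-- the lattice, with a translation invariant linear order -/
abbrev Λ : Type := ℤ ×ₗ ℤ

instance : Countable Λ := inferInstanceAs (Countable (ℤ × ℤ))

/-- lattice point -/
def pt (l : Λ) : E := !₂[((ofLex l).1 : ℝ), ((ofLex l).2 : ℝ)]

lemma pt_add (l m : Λ) : pt (l + m) = pt l + pt m := by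
  ext i; fin_cases i <;> simp [pt]

lemma pt_zero : pt 0 = 0 := by ext i; fin_cases i <;> simp [pt]

lemma finite_near (x : E) (r : ℝ) : {l : Λ | dist x (pt l) ≤ r}.Finite := by
  obtain ⟨n, hn⟩ := exists_nat_ge (‖x‖ + r)
  refine (((finite_Icc (-(n : ℤ)) n).prod (finite_Icc (-(n : ℤ)) n)).image toLex).subset ?_
  intro l hl
  have h : ‖pt l‖ ≤ n := by
    have := norm_sub_norm_le (pt l) x
    rw [mem_ofPred_eq, dist_comm, dist_eq_norm] at hl
    linarith
  have h0 := (PiLp.norm_apply_le (pt l) 0).trans h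
  have h1 := (PiLp.norm_apply_le (pt l) 1).trans h
  simp only [pt, Real.norm_eq_abs, abs_le] at h0 h1
  simp at h0 h1
  refine ⟨ofLex l, ⟨⟨?_, ?_⟩, ?_, ?_⟩, rfl⟩
  · exact_mod_cast h0.1
  · exact_mod_cast h0.2
  · exact_mod_cast h1.1
  · exact_mod_cast h1.2

lemma exists_near (x : E) : ∃ l : Λ, dist x (pt l) < 1 := by
  refine ⟨toLex (round (x 0), round (x 1)), ?_⟩
  have h0 := abs_sub_round (x 0)
  have h1 := abs_sub_round (x 1)
  rw [EuclideanSpace.dist_eq, Real.sqrt_lt' one_pos, Fin.sum_univ_two]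
  simp only [pt, Real.dist_eq]
  simp
  rw [← sq_abs (x 0 - _), ← sq_abs (x 1 - _)]
  nlinarith [abs_nonneg (x 0 - round (x 0)), abs_nonneg (x 1 - round (x 1))]

/-- open cell: points whose first covering disc is the one at `l` -/
def O (r : ℝ) (l : Λ) : Set E :=
  interior {x | dist x (pt l) ≤ r ∧ ∀ m < l, r < dist x (pt m)}

lemma O_open (r : ℝ) (l : Λ) : IsOpen (O r l) := isOpen_interior

lemma O_dist {r : ℝ} {l : Λ} {x : E} (h : x ∈ closure (O r l)) : dist x (pt l) ≤ r :=
  closure_minimal (s := O r l) (t := closedBall (pt l) r) (fun _ h => (interior_subset h).1)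
    isClosed_closedBall h

lemma O_eq {r : ℝ} {l m : Λ} {x : E} (h1 : x ∈ O r l) (h2 : x ∈ O r m) : l = m := by
  have h1 := interior_subset h1
  have h2 := interior_subset h2
  rcases lt_trichotomy l m with h | h | h
  · exact absurd (h2.2 l h) (not_lt.2 h1.1)
  · exact h
  · exact absurd (h1.2 m h) (not_lt.2 h2.1)

lemma mem_O_add {r : ℝ} {l : Λ} (m : Λ) {x : E} : x + pt m ∈ O r (l + m) ↔ x ∈ O r l := by
  have : O r l = (Homeomorph.addRight (pt m)) ⁻¹' O r (l + m) := by
    rw [O, O, Homeomorph.preimage_interior]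
    congr 1
    ext y
    simp only [mem_ofPred_eq, mem_preimage, Homeomorph.coe_addRight, pt_add, dist_add_right]
    refine and_congr Iff.rfl ⟨fun h n hn => ?_, fun h n hn => ?_⟩
    · have := h (n - m) (by simpa [sub_lt_iff_lt_add] using hn)
      rwa [← dist_add_right _ _ (pt m), ← pt_add, sub_add_cancel] at this
    · have := h (n + m) (by simpa using hn)
      rwa [pt_add, dist_add_right] at this
  rw [this]; rfl

lemma exists_O {r : ℝ} (hr : 1 ≤ r) {x : E} (hx : ∀ l, dist x (pt l) ≠ r) : ∃ l, x ∈ O r l := by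
  obtain ⟨l0, h0⟩ := exists_near x
  obtain ⟨l, h1, h2⟩ := (finite_near x r).exists_minimal ⟨l0, h0.le.trans hr⟩
  refine ⟨l, mem_interior_iff_mem_nhds.2 ?_⟩
  have e1 : ∀ᶠ y in 𝓝 x, dist y (pt l) < r :=
    (continuous_id.dist continuous_const).continuousAt.eventually_lt continuousAt_const
      (lt_of_le_of_ne h1 (hx l))
  have e2 : ∀ᶠ y in 𝓝 x, ∀ m ∈ {m : Λ | dist x (pt m) ≤ r + 1}, m < l → r < dist y (pt m) := by
    rw [eventually_all_finite (finite_near x (r + 1))]
    intro m _
    by_cases hm : m < l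
    · have : r < dist x (pt m) := not_le.1 fun h => absurd (h2 h hm.le) (not_le.2 hm)
      filter_upwards [continuousAt_const.eventually_lt
        (continuous_id.dist continuous_const).continuousAt this] with y hy _ using hy
    · exact Eventually.of_forall fun y h => absurd h hm
  filter_upwards [e1, e2, ball_mem_nhds x one_pos] with y h3 h4 h5
  refine ⟨h3.le, fun m hm => ?_⟩
  by_cases h6 : dist x (pt m) ≤ r + 1
  · exact h4 m h6 hm
  · have := dist_triangle x y (pt m)
    rw [mem_ball, dist_comm] at h5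
    linarith [not_le.1 h6]

lemma dense_off (r : ℝ) (hr : 1 ≤ r) : Dense {x : E | ∀ l, dist x (pt l) ≠ r} := by
  have : {x : E | ∀ l, dist x (pt l) ≠ r} = ⋂ l, (sphere (pt l) r)ᶜ := by
    ext x; simp [dist_eq_norm]
  rw [this]
  refine dense_iInter_of_isOpen (fun l => isClosed_sphere.isOpen_compl) fun l => ?_
  rw [← interior_eq_empty_iff_dense_compl]
  exact interior_sphere _ (by linarith)

lemma exists_closure {r : ℝ} (hr : 1 ≤ r) (x : E) : ∃ l, x ∈ closure (O r l) := by
  have h1 : x ∈ closure (⋃ l ∈ {l : Λ | dist x (pt l) ≤ r + 1}, O r l) := by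
    refine closure_mono ?_ ((dense_off r hr).open_subset_closure_inter isOpen_ball
      (mem_ball_self one_pos))
    rintro y ⟨h1, h2⟩
    obtain ⟨l, hl⟩ := exists_O hr h2
    have h3 := O_dist (subset_closure hl)
    have h4 := dist_triangle x y (pt l)
    rw [mem_ball, dist_comm] at h1
    exact mem_biUnion (show dist x (pt l) ≤ r + 1 by linarith) hl
  rw [(finite_near x (r + 1)).closure_biUnion] at h1
  simp only [mem_iUnion] at h1
  obtain ⟨l, _, h⟩ := h1
  exact ⟨l, h⟩

lemma on_sphere {r : ℝ} (hr : 1 ≤ r) {l : Λ} {x : E} (h : x ∈ closure (O r l)) (h' : x ∉ O r l) :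
    ∃ m, dist x (pt m) = r := by
  by_contra hc
  obtain ⟨m, hm⟩ := exists_O hr (not_exists.1 hc)
  obtain ⟨y, h1, h2⟩ := mem_closure_iff.1 h _ (O_open r m) hm
  exact h' (O_eq h1 h2 ▸ hm)

lemma O_nonempty {r : ℝ} (hr : 1 ≤ r) (l : Λ) : (O r l).Nonempty := by
  obtain ⟨x, hx⟩ := (dense_off r hr).nonempty
  obtain ⟨m, hm⟩ := exists_O hr hx
  exact ⟨_, by simpa using (mem_O_add (l - m)).2 hm⟩

/-- the translated body -/
def B (v l : Λ) : Set E := closure (O 1 l ∪ O 2 (v + l))

lemma B_eq (v l : Λ) : B v l = IsometryEquiv.addRight (pt l) '' B v 0 := by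
  have := (Homeomorph.addRight (pt l)).image_closure (O 1 0 ∪ O 2 (v + 0))
  refine Eq.trans ?_ this.symm
  unfold B
  congr 1
  ext x
  obtain ⟨y, rfl⟩ : ∃ y, x = y + pt l := ⟨x - pt l, by simp⟩
  have h1 := mem_O_add (r := 1) (l := 0) l (x := y)
  have h2 := mem_O_add (r := 2) (l := v) l (x := y)
  simp only [zero_add] at h1
  simp [h1, h2]

lemma sub_int (v l : Λ) : O 1 l ∪ O 2 (v + l) ⊆ interior (B v l) :=
  interior_maximal subset_closure ((O_open _ _).union (O_open _ _))

lemma isBody (v : Λ) : IsBody (B v 0) := by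
  refine ⟨((O_nonempty le_rfl 0).mono subset_union_left).closure, ?_, ?_⟩
  · refine Bornology.IsBounded.isCompact_closure (Bornology.IsBounded.union ?_ ?_)
    · exact (isBounded_closedBall (x := pt 0) (r := 1)).subset fun x h => O_dist (subset_closure h)
    · exact (isBounded_closedBall (x := pt (v + 0)) (r := 2)).subset
        fun x h => O_dist (subset_closure h)
  · exact (closure_mono (sub_int v 0)).antisymm (closure_minimal interior_subset isClosed_closure)

lemma meet_of_interior {U V : Set E} (hU : IsOpen U)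
    (h : ¬Disjoint (interior (closure U)) (interior (closure V))) : (U ∩ V).Nonempty := by
  obtain ⟨x, h1, h2⟩ := not_disjoint_iff.1 h
  obtain ⟨y, h3, h4⟩ := mem_closure_iff.1 (interior_subset h1) _ isOpen_interior h2
  exact mem_closure_iff.1 (interior_subset h3) _ hU h4

lemma cross {v l m : Λ} {x : E} (h1 : x ∈ closure (O 1 l)) (h2 : x ∈ closure (O 2 (v + m))) :
    ‖pt v‖ ≤ ‖pt l‖ + ‖pt m‖ + 3 := by
  have h1 := O_dist h1
  have h2 := O_dist h2
  have h3 := dist_triangle_left (pt l) (pt (v + m)) x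
  rw [pt_add] at h2 h3
  have h4 : pt v = pt l - pt m - (pt l - (pt v + pt m)) := by abel
  rw [dist_eq_norm (pt l)] at h3
  have h5 := norm_sub_le (pt l - pt m) (pt l - (pt v + pt m))
  rw [← h4] at h5
  linarith [norm_sub_le (pt l) (pt m)]

lemma eq_of_meet {v l m : Λ} (hv : ‖pt l‖ + ‖pt m‖ + 3 < ‖pt v‖)
    (h : ¬Disjoint (interior (B v l)) (interior (B v m))) : l = m := by
  obtain ⟨x, h1 | h1, h2 | h2⟩ := meet_of_interior ((O_open _ _).union (O_open _ _)) h
  · exact O_eq h1 h2
  · linarith [cross (subset_closure h1) (subset_closure h2)]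
  · linarith [cross (subset_closure h2) (subset_closure h1)]
  · exact add_left_cancel (O_eq h1 h2)

lemma norm_pt (n : ℕ) : ‖pt (toLex (n, 0))‖ = n := by
  simp [pt, EuclideanSpace.norm_eq]

theorem surrounded (k : ℕ) {v : Λ} (hv : 10 * k + 3 < ‖pt v‖) : Surrounded (B v 0) k := by
  refine ⟨fun i => B v '' {l | ‖pt l‖ ≤ 5 * i}, ?_, fun i hi => ⟨?_, ?_, ?_⟩,
    fun i hi => ⟨?_, ?_⟩⟩
  · have : {l : Λ | ‖pt l‖ ≤ 5 * (0 : ℕ)} = {0} := by
      ext l
      simp only [mem_ofPred_eq, Nat.cast_zero, mul_zero, norm_le_zero_iff, mem_singleton_iff]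
      refine ⟨fun h => ?_, fun h => h ▸ pt_zero⟩
      obtain ⟨x, hx⟩ := O_nonempty le_rfl 0
      have := (mem_O_add l).2 hx
      rw [h, add_zero, zero_add] at this
      exact O_eq this hx
    simp only [this, image_singleton]
  · refine Finite.image _ ((finite_near 0 (5 * i)).subset fun l hl => ?_)
    simpa using hl
  · rintro _ ⟨l, -, rfl⟩
    exact ⟨_, B_eq v l⟩
  · rintro _ ⟨l, hl, rfl⟩ _ ⟨m, hm, rfl⟩ hne
    by_contra h
    have hi : (i : ℝ) ≤ k := by exact_mod_cast hi
    rw [mem_ofPred_eq] at hl hm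
    exact hne (congrArg _ (eq_of_meet (by linarith) h))
  · have hi : (i : ℝ) + 1 ≤ k := by exact_mod_cast hi
    refine ⟨image_mono fun l hl => ?_, fun h => ?_⟩
    · simp only [mem_ofPred_eq] at hl ⊢
      push_cast; linarith
    · have h1 := norm_pt (5 * (i + 1))
      obtain ⟨m, hm, h2⟩ := h ⟨toLex ((5 * (i + 1) : ℕ), 0), by rw [mem_ofPred_eq, h1]; simp, rfl⟩
      rw [mem_ofPred_eq] at hm
      have := eq_of_meet (v := v) (l := m) (m := toLex ((5 * (i + 1) : ℕ), 0))
        (by rw [h1]; push_cast; linarith) (by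
          rw [h2, disjoint_self]
          exact (((O_nonempty le_rfl _).mono subset_union_left).mono (sub_int v _)).ne_empty)
      rw [this, h1] at hm
      push_cast at hm
      linarith
  · rintro _ ⟨l, hl, rfl⟩
    rw [mem_ofPred_eq] at hl
    rw [closure_compl, disjoint_comm, ← subset_compl_iff_disjoint_right, compl_compl]
    intro x hx
    refine mem_interior_iff_mem_nhds.2 (mem_of_superset (ball_mem_nhds x one_pos) fun y hy => ?_)
    rw [B, closure_union] at hx
    have key : ∀ (r : ℝ) (a b : Λ), r ≤ 2 → x ∈ closure (O r (a + l)) →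
        y ∈ closure (O r (a + b)) → ‖pt b‖ ≤ 5 * (i + 1 : ℕ) := by
      intro r a b hr h1 h2
      have h1 := O_dist h1
      have h2 := O_dist h2
      have h3 := dist_triangle4 (pt (a + b)) y x (pt (a + l))
      rw [pt_add, pt_add, dist_add_left, ← pt_add, ← pt_add, dist_comm _ y,
        dist_eq_norm (pt b)] at h3
      have h4 := norm_sub_norm_le (pt b) (pt l)
      rw [mem_ball] at hy
      push_cast; linarith
    rcases hx with hx | hx
    · obtain ⟨m, hm⟩ := exists_closure le_rfl y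
      exact ⟨_, ⟨m, key 1 0 m one_le_two (by simpa using hx) (by simpa using hm), rfl⟩,
        closure_mono subset_union_left hm⟩
    · obtain ⟨m, hm⟩ := exists_closure one_le_two y
      obtain ⟨m, rfl⟩ : ∃ m', m = v + m' := ⟨m - v, by simp⟩
      exact ⟨_, ⟨m, key 2 v m le_rfl hx hm, rfl⟩, closure_mono subset_union_right hm⟩

lemma countable_spheres (a b : E) : (sphere a 1 ∩ sphere b 2).Countable := by
  by_cases hab : a = b
  · subst hab
    refine countable_empty.mono fun x h => ?_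
    have h1 := mem_sphere.1 h.1
    have h2 := mem_sphere.1 h.2
    linarith
  · by_cases h : (sphere a 1 ∩ sphere b 2).Subsingleton
    · exact h.finite.countable
    · obtain ⟨p, hp, q, hq, hpq⟩ := not_subsingleton_iff.1 h
      refine (toFinite {p, q}).countable.mono fun x hx => ?_
      exact EuclideanGeometry.eq_of_dist_eq_of_dist_eq_of_finrank_eq_two (by simp) hab hpq
        hp.1 hq.1 hx.1 hp.2 hq.2 hx.2

lemma locFin {C : Set E} (hC : IsBody C) {P : Set (Set E)} (hP : IsPacking C P) (x : E) (s : ℝ) :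
    {D ∈ P | (D ∩ ball x s).Nonempty}.Finite := by
  obtain ⟨c, hc⟩ : (interior C).Nonempty := by rw [← closure_nonempty_iff, ← hC.2.2]; exact hC.1
  obtain ⟨ε, hε, hb⟩ := Metric.isOpen_iff.1 isOpen_interior c hc
  obtain ⟨R, hR⟩ := hC.2.1.isBounded.subset_closedBall c
  choose! f hf using hP.1
  obtain ⟨t, -, ht, hcov⟩ := (isCompact_closedBall x (s + R)).finite_cover_balls (half_pos hε)
  have h1 : ∀ D ∈ {D ∈ P | (D ∩ ball x s).Nonempty}, ∃ y ∈ t, f D c ∈ ball y (ε / 2) := by
    rintro D ⟨hD, y, h1, h2⟩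
    rw [hf D hD] at h1
    obtain ⟨z, hz, rfl⟩ := h1
    have h3 := hR hz
    rw [mem_closedBall, ← (f D).dist_eq] at h3
    have h4 := dist_triangle_left (f D c) x (f D z)
    rw [mem_ball] at h2
    simpa using hcov (show f D c ∈ closedBall x (s + R) by rw [mem_closedBall]; linarith)
  choose! g hg1 hg2 using h1
  refine Finite.of_finite_image (f := g) (ht.subset ?_) fun A hA D hD h => ?_
  · rintro _ ⟨D, hD, rfl⟩
    exact hg1 D hD
  · by_contra hne
    have h2 : ∀ D ∈ P, ball (f D c) ε ⊆ interior D := fun D hD => by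
      refine interior_maximal ?_ isOpen_ball
      conv_rhs => rw [hf D hD]
      rw [← (f D).image_ball]
      exact image_mono (hb.trans interior_subset)
    refine not_disjoint_iff.2 ⟨f A c, h2 A hA.1 (mem_ball_self hε), h2 D hD.1 ?_⟩
      (hP.2 hA.1 hD.1 hne)
    have h3 := hg2 A hA
    have h4 := hg2 D hD
    rw [h] at h3
    have := dist_triangle_right (f A c) (f D c) (g D)
    rw [mem_ball] at *
    linarith

theorem not_tiles {v : Λ} (hv : 3 < ‖pt v‖) : ¬Tiles (B v 0) := by
  rintro ⟨P, hP, hcov⟩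
  have hfin := locFin (isBody v) hP
  choose! f hf using hP.1
  have hcount : P.Countable := by
    refine (countable_iUnion fun n : ℕ => (hfin 0 n).countable).mono fun D hD => ?_
    obtain ⟨y, hy⟩ : D.Nonempty := by rw [hf D hD]; exact (isBody v).1.image _
    obtain ⟨n, hn⟩ := exists_nat_gt ‖y‖
    exact mem_iUnion.2 ⟨n, hD, y, hy, by simpa using hn⟩
  have hcl : ∀ K : Set E, IsClosed K → K ⊆ B v 0 → IsClosed (⋃ D : P, f D '' K) := by
    intro K h1 h2
    refine LocallyFinite.isClosed_iUnion (fun x => ⟨ball x 1, ball_mem_nhds x one_pos, ?_⟩)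
      fun D => (f D).toHomeomorph.isClosedMap K h1
    refine ((hfin x 1).preimage Subtype.val_injective.injOn).subset fun D hD => ⟨D.2, hD.mono ?_⟩
    refine inter_subset_inter_left _ ?_
    conv_rhs => rw [hf D D.2]
    exact image_mono h2
  let Z : Set E := ⋃ A ∈ P, ⋃ D ∈ P, ⋃ l, ⋃ m, sphere (f A (pt l)) 1 ∩ sphere (f D (pt m)) 2
  have hZ : Z.Countable := hcount.biUnion fun A _ => hcount.biUnion fun D _ =>
    countable_iUnion fun l => countable_iUnion fun m => countable_spheres _ _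
  have hconn := (hZ.isConnected_compl_of_one_lt_rank (by
    rw [← Module.finrank_eq_rank]; simp)).isPreconnected
  have hint : ∀ D ∈ P, f D '' (O 1 0 ∪ O 2 (v + 0)) ⊆ interior D := fun D hD => by
    refine interior_maximal ?_ ((f D).toHomeomorph.isOpenMap _ ((O_open _ _).union (O_open _ _)))
    conv_rhs => rw [hf D hD]
    exact image_mono subset_closure
  obtain ⟨D0, hD0, -⟩ : (0 : E) ∈ ⋃₀ P := hcov ▸ mem_univ _
  have hne : ∀ (r : ℝ) (l : Λ), 1 ≤ r → (Zᶜ ∩ ⋃ D : P, f D '' closure (O r l)).Nonempty := by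
    intro r l hr
    obtain ⟨y, h1, h2⟩ := (hZ.dense_compl ℝ).inter_open_nonempty _
      ((f D0).toHomeomorph.isOpenMap _ (O_open r l)) ((O_nonempty hr l).image _)
    exact ⟨y, h2, mem_iUnion.2 ⟨⟨D0, hD0⟩, image_mono subset_closure h1⟩⟩
  obtain ⟨x, hxZ, h1, h2⟩ := isPreconnected_closed_iff.1 hconn _ _
    (hcl (closure (O 1 0)) isClosed_closure (closure_mono subset_union_left))
    (hcl (closure (O 2 (v + 0))) isClosed_closure (closure_mono subset_union_right))
    (fun x _ => by
      obtain ⟨D, hD, hx⟩ : x ∈ ⋃₀ P := hcov ▸ mem_univ _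
      rw [hf D hD, B, closure_union, image_union] at hx
      exact hx.imp (fun h => mem_iUnion.2 ⟨⟨D, hD⟩, h⟩) fun h => mem_iUnion.2 ⟨⟨D, hD⟩, h⟩)
    (hne 1 0 le_rfl) (hne 2 _ one_le_two)
  obtain ⟨⟨A, hA⟩, a, ha, rfl⟩ := mem_iUnion.1 h1
  obtain ⟨⟨D, hD⟩, d, hd, h3⟩ := mem_iUnion.1 h2
  simp only at h3 hxZ
  by_cases hAD : A = D
  · subst hAD
    rw [(f A).injective h3] at hd
    have := cross ha hd
    simp only [pt_zero, norm_zero] at this
    linarith
  have key : ∀ A ∈ P, ∀ D ∈ P, A ≠ D → ∀ (a d : E) (U V : Set E), U ⊆ O 1 0 ∪ O 2 (v + 0) →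
      V ⊆ O 1 0 ∪ O 2 (v + 0) → a ∈ U → d ∈ closure V → f D d ≠ f A a := by
    intro A hA D hD hne a d U V hU hV ha hd h
    have h1 : f A a ∈ interior A := hint A hA ⟨a, hU ha, rfl⟩
    have h2 : f A a ∈ closure (interior D) :=
      closure_mono ((image_mono hV).trans (hint D hD))
        (image_closure_subset_closure_image (f D).continuous ⟨d, hd, h⟩)
    obtain ⟨y, h3, h4⟩ := mem_closure_iff.1 h2 _ isOpen_interior h1
    exact not_disjoint_iff.2 ⟨y, h3, h4⟩ (hP.2 hA hD hne)
  obtain ⟨l, hl⟩ := on_sphere le_rfl ha fun h =>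
    key A hA D hD hAD a d _ _ subset_union_left subset_union_right h hd h3
  obtain ⟨m, hm⟩ := on_sphere one_le_two hd fun h =>
    key D hD A hA (Ne.symm hAD) d a _ _ subset_union_right subset_union_left h ha h3.symm
  refine hxZ (mem_biUnion hA (mem_biUnion hD (mem_iUnion.2 ⟨l, mem_iUnion.2 ⟨m, ?_, ?_⟩⟩)))
  · rwa [mem_sphere, (f A).dist_eq]
  · rwa [← h3, mem_sphere, (f D).dist_eq]

theorem main (k : ℕ) : ∃ C : Set E, IsBody C ∧ Surrounded C k ∧ ¬Tiles C := by
  have h := norm_pt (10 * k + 4)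
  have hk : (0 : ℝ) ≤ k := k.cast_nonneg
  exact ⟨B (toLex ((10 * k + 4 : ℕ), 0)) 0, isBody _,
    surrounded k (by rw [h]; push_cast; linarith), not_tiles (by rw [h]; push_cast; linarith)⟩

end Pool.Agent.P.MP_6145c0_co
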