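import Pool.Agent.P.MP_6145c0_co.Tile

/-! The chain of cells does not tile the plane. -/

set_option autoImplicit false

open Set Metric Filter Topology

noncomputable section

namespace Pool.Agent.P.MP_6145c0_co.Chain

lemma tiles_self {C : Set E} (h : Tiles C) : ∃ P, IsPacking C P ∧ ⋃₀ P = univ ∧ C ∈ P := by
  obtain ⟨P, ⟨h1, h2⟩, h3⟩ := h
  obtain ⟨D0, hD0, -⟩ : (0 : E) ∈ ⋃₀ P := h3 ▸ mem_univ _
  obtain ⟨f, hf⟩ := h1 D0 hD0
  refine ⟨(fun D => f.symm '' D) '' P, ⟨?_, ?_⟩, ?_, D0, hD0, ?_⟩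
  · rintro _ ⟨D, hD, rfl⟩
    obtain ⟨g, rfl⟩ := h1 D hD
    exact ⟨g.trans f.symm, image_image _ _ _⟩
  · rintro _ ⟨A, hA, rfl⟩ _ ⟨D, hD, rfl⟩ hne
    have e : ∀ S : Set E, interior (f.symm '' S) = f.symm '' interior S := fun S =>
      (f.symm.toHomeomorph.image_interior S).symm
    simp only [e]
    exact (disjoint_image_iff f.symm.injective).2 (h2 hA hD fun h => hne (h ▸ rfl))
  · refine eq_univ_of_forall fun x => ?_
    obtain ⟨D, hD, hx⟩ : f x ∈ ⋃₀ P := h3 ▸ mem_univ _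
    exact ⟨_, ⟨D, hD, rfl⟩, f x, hx, by simp⟩
  · simp [hf, image_image]

variable {M : ℤ}

lemma arc_not_interior {a b c : ℤ} {u y : ℝ} (h0 : 0 < u) (h1 : u < 1)
    (h : pq ((c + a : ℤ) + u) y ∈ interior (T M a b)) :
    F (M + 1) ((rho M c + b) * (M + 1) + lam M c) u < y ∧
      y < F (M + 1) ((rho M c + b) * (M + 1) + lam M c + 1) u := by
  have h2 := (cont_pq (continuous_const (y := ((c + a : ℤ) : ℝ) + u))
    continuous_id).continuousAt.preimage_mem_nhds (mem_interior_iff_mem_nhds.1 h)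
  rw [← mem_Ioo, ← interior_Icc, mem_interior_iff_mem_nhds]
  refine mem_of_superset h2 fun s hs => ?_
  obtain ⟨d, -, h3⟩ := mem_iUnion₂.1 hs
  have h4 : d + a = c + a :=
    col_eq (x := (c + a : ℤ) + u) (by linarith) (by linarith) h3.1 h3.2.1
  obtain rfl : d = c := by omega
  simpa using h3.2.2

lemma neighbour (hM : 3 ≤ M) {P : Set (Set E)} (hP : IsPacking (T M 0 0) P) (hcov : ⋃₀ P = univ)
    {a b c w : ℤ} (hA : T M a b ∈ P) (hc : c ∈ Icc 0 (4 * M + 3))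
    (hw : w = (rho M c + b) * (M + 1) + lam M c ∨ w = (rho M c + b) * (M + 1) + lam M c + 1) :
    ∃ a' b', T M a' b' ∈ P ∧ T M a' b' ≠ T M a b ∧ ∃ c' ∈ Icc 0 (4 * M + 3), c' + a' = c + a ∧
      (w = (rho M c' + b') * (M + 1) + lam M c' ∨
        w = (rho M c' + b') * (M + 1) + lam M c' + 1) := by
  by_contra hcon
  have hL : 0 < M + 1 := by omega
  obtain ⟨R, hR⟩ := (T_body hM a b).2.1.isBounded.subset_ball 0
  have hQ := (locFin (T_body hM 0 0) hP 0 R).subset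
    (show {D ∈ P | (D ∩ ball 0 R).Nonempty} \ {T M a b} ⊆ _ from sdiff_subset)
  choose! f hf using hP.1
  let γ : ℝ → E := fun u => pq ((c + a : ℤ) + u) (((w / (M + 1) : ℤ) : ℝ) + kap (M + 1) w * cub u)
  let Z : ℤ → ℤ := fun d => (rho M d + 0) * (M + 1) + lam M d
  let S : Set E → ℤ → ℤ → Set ℝ := fun D d ζ =>
    {u | 0 < u ∧ (d : ℝ) ≤ (f D).symm (γ u) 0 ∧ (f D).symm (γ u) 1 =
      ((ζ / (M + 1) : ℤ) : ℝ) + kap (M + 1) ζ * cub ((f D).symm (γ u) 0 - d)}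
  have hS : ∀ D ∈ P, D ≠ T M a b → ∀ d ∈ Icc 0 (4 * M + 3), ∀ ζ, ζ = Z d ∨ ζ = Z d + 1 →
      (S D d ζ).Finite := by
    intro D hD hne d hd ζ hζ
    by_contra hinf
    obtain ⟨k1, k2⟩ := rigid_arc (f D).symm _ _ _ _ (kap_pos hL w) (kap_pos hL ζ) hinf
    have k3 : D = T M (c + a - d) (w / (M + 1) - ζ / (M + 1)) := by
      rw [T_eq hM]
      refine (hf D hD).trans (image_congr fun p _ => (f D).symm.injective ?_)
      rw [(f D).symm_apply_apply, k2]
      exact ext2 (by simp; ring) (by simp; ring)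
    refine hcon ⟨_, _, k3 ▸ hD, k3 ▸ hne, d, hd, by ring, ?_⟩
    have k4 := kap_inj hL k1
    have k5 := Int.ediv_mul_add_emod w (M + 1)
    have k6 := Int.ediv_mul_add_emod ζ (M + 1)
    simp only [Z] at hζ
    refine hζ.imp (fun h => ?_) fun h => ?_ <;> linarith
  refine Ioo_infinite (zero_lt_one' ℝ) ((hQ.biUnion (t := fun D => ⋃ d ∈ Icc 0 (4 * M + 3),
    ({u | (f D).symm (γ u) 0 = d} ∪ {u | (f D).symm (γ u) 0 = d + 1}) ∪
      (S D d (Z d) ∪ S D d (Z d + 1))) fun D hD => (finite_Icc _ _).biUnion fun d hd =>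
      ((rigid_line _ _ _ _ (kap_pos hL w)).union (rigid_line _ _ _ _ (kap_pos hL w))).union
        ((hS D hD.1.1 hD.2 d hd _ (Or.inl rfl)).union (hS D hD.1.1 hD.2 d hd _ (Or.inr rfl)))).subset
    fun u hu => ?_)
  have hle := F_le_succ hL ((rho M c + b) * (M + 1) + lam M c) hu.1.le hu.2.le
  have hγ : γ u = pq ((c + a : ℤ) + u) (F (M + 1) w u) := rfl
  have m1 : γ u ∈ T M a b := by
    refine mem_biUnion hc ?_
    simp only [hγ, cell, Kc, mem_ofPred_eq, pq0, pq1, add_sub_cancel_left]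
    refine ⟨by linarith [hu.1], by linarith [hu.2], ?_⟩
    rcases hw with rfl | rfl
    · exact ⟨le_rfl, hle⟩
    · exact ⟨hle, le_rfl⟩
  have m2 : γ u ∉ interior (T M a b) := fun h => by
    have := arc_not_interior hu.1 hu.2 (hγ ▸ h)
    rcases hw with rfl | rfl
    · exact lt_irrefl _ this.1
    · exact lt_irrefl _ this.2
  have hcl : ∀ D ∈ P, IsClosed D := fun D hD => by
    rw [hf D hD]
    exact (f D).toHomeomorph.isClosedMap _ (T_body hM 0 0).2.1.isClosed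
  obtain ⟨D, hD, m3⟩ : ∃ D ∈ {D ∈ P | (D ∩ ball 0 R).Nonempty} \ {T M a b}, γ u ∈ D := by
    by_contra hn
    refine m2 (mem_interior_iff_mem_nhds.2 (mem_of_superset ((isOpen_ball.inter
      (hQ.isClosed_biUnion fun D hD => hcl D hD.1.1).isOpen_compl).mem_nhds
        ⟨hR m1, fun h => hn (by simpa only [mem_iUnion, exists_prop] using h)⟩) ?_))
    rintro y ⟨y1, y2⟩
    obtain ⟨D, hD, y3⟩ : y ∈ ⋃₀ P := hcov ▸ mem_univ _
    by_contra y4
    exact y2 (mem_biUnion (t := fun D => D) ⟨⟨hD, y, y3, y1⟩, fun h => y4 (h ▸ y3)⟩ y3)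
  refine mem_biUnion hD ?_
  have m4 : (f D).symm (γ u) ∈ T M 0 0 := by
    rw [hf D hD.1.1] at m3
    obtain ⟨q, hq, e⟩ := m3
    rwa [← e, (f D).symm_apply_apply]
  obtain ⟨d, hd, m5⟩ := mem_iUnion₂.1 m4
  refine mem_biUnion hd ?_
  have m6 : (f D).symm (γ u) ∉ ocell M 0 0 d := fun h => by
    have k1 : γ u ∈ interior D := by
      rw [hf D hD.1.1]
      exact (f D).toHomeomorph.image_interior _ ▸ ⟨_, ocell_sub hd h, by simp⟩
    rw [(T_body hM a b).2.2] at m1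
    obtain ⟨y, y1, y2⟩ := mem_closure_iff.1 m1 _ isOpen_interior k1
    exact not_disjoint_iff.2 ⟨y, y1, y2⟩ (hP.2 hD.1.1 hA hD.2)
  simp only [cell, ocell, Kc, Oc, add_zero, mem_ofPred_eq] at m5 m6
  obtain ⟨k1, k2, k3, k4⟩ := m5
  rcases k1.eq_or_lt with e1 | e1
  · exact Or.inl (Or.inl e1.symm)
  rcases k2.eq_or_lt with e2 | e2
  · exact Or.inl (Or.inr e2)
  rcases k3.eq_or_lt with e3 | e3
  · exact Or.inr (Or.inl ⟨hu.1, k1, by simpa only [Z, add_zero, F] using e3.symm⟩)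
  rcases k4.eq_or_lt with e4 | e4
  · exact Or.inr (Or.inr ⟨hu.1, k1, by simpa only [Z, add_zero, F] using e4⟩)
  exact (m6 ⟨e1, e2, e3, e4⟩).elim

theorem not_tiles_T {h : ℤ} (hh : 1 ≤ h) : ¬Tiles (T (2 * h + 1) 0 0) := by
  intro ht
  refine no_global hh (fun a b => T (2 * h + 1) a b ∈ (tiles_self ht).choose) ?_
  obtain ⟨hP, hcov, hC⟩ := (tiles_self ht).choose_spec
  generalize (tiles_self ht).choose = P at *
  generalize hM' : 2 * h + 1 = M at *
  have hM : 3 ≤ M := by omega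
  have same : ∀ {a b a' b' c c' : ℤ}, T M a b ∈ P → T M a' b' ∈ P → c ∈ Icc 0 (4 * M + 3) →
      c' ∈ Icc 0 (4 * M + 3) → c' + a' = c + a →
      (rho M c' + b') * (M + 1) + lam M c' = (rho M c + b) * (M + 1) + lam M c →
      T M a' b' = T M a b := by
    intro a b a' b' c c' hA hA' hc hc' e1 e2
    by_contra hne
    obtain ⟨p, hp⟩ := ocell_ne hM a b c
    refine not_disjoint_iff.2 ⟨p, ocell_sub hc' ?_, ocell_sub hc hp⟩ (hP.2 hA' hA hne)
    rwa [ocell, e1, e2]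
  let G : ℤ → ℤ → Prop := fun n z => ∃ a b, T M a b ∈ P ∧ ∃ c ∈ Icc 0 (4 * M + 3), c + a = n ∧
    (rho M c + b) * (M + 1) + lam M c = z
  have up : ∀ n z, G n z → G n (z + 1) := by
    rintro _ _ ⟨a, b, hA, c, hc, rfl, rfl⟩
    obtain ⟨a', b', hA', hne, c', hc', e1, e2 | e2⟩ := neighbour hM hP hcov hA hc (Or.inr rfl)
    · exact ⟨a', b', hA', c', hc', e1, e2.symm⟩
    · exact (hne (same hA hA' hc hc' e1 (add_right_cancel e2).symm)).elim
  have down : ∀ n z, G n z → G n (z - 1) := by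
    rintro _ _ ⟨a, b, hA, c, hc, rfl, rfl⟩
    obtain ⟨a', b', hA', hne, c', hc', e1, e2 | e2⟩ := neighbour hM hP hcov hA hc (Or.inl rfl)
    · exact (hne (same hA hA' hc hc' e1 e2.symm)).elim
    · exact ⟨a', b', hA', c', hc', e1, by rw [e2, add_sub_cancel_right]⟩
  have col : ∀ n z, G n z → ∀ w, G n w := fun n z hz w =>
    Int.inductionOn' w z hz (fun k _ => up n k) fun k _ => down n k
  have all : ∀ n, G n 0 := fun n => by
    refine Int.inductionOn' n 0 (col _ _ ⟨0, 0, hC, 0, zero_mem hM, rfl, rfl⟩ _) ?_ ?_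
    · rintro k - ⟨a, b, hA, c, hc, rfl, e⟩
      have k1 := lam_bd hM hc.1 hc.2
      have k2 := (split_eq (r' := 0) (i' := 0) k1.1 k1.2.1 le_rfl (by omega) (by simpa using e)).2
      have k3 := (cols (i := M) hM (by omega) le_rfl).2.2.2.1.1
      have k4 : c ≠ 3 * M + 3 + M := fun h => by rw [h, k3] at k2; omega
      exact col _ _ ⟨a, b, hA, c + 1, ⟨by have := hc.1; omega, by have := hc.2; omega⟩, by ring,
        rfl⟩ _
    · intro k _ hk
      obtain ⟨a, b, hA, c, hc, rfl, e⟩ := col _ _ hk M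
      have k1 := lam_bd hM hc.1 hc.2
      have k2 := (split_eq (r' := 0) (i' := M) k1.1 k1.2.1 (by omega) le_rfl (by simpa using e)).2
      have k3 := (cols (i := 0) hM le_rfl (by omega)).1.1
      have k4 : c ≠ 0 := fun h => by rw [h, k3] at k2; omega
      exact col _ _ ⟨a, b, hA, c - 1, ⟨by have := hc.1; omega, by have := hc.2; omega⟩, by ring,
        rfl⟩ _
  intro n r i i0 i1
  constructor
  · obtain ⟨a, b, hA, c, hc, rfl, e⟩ := col _ _ (all n) (r * (M + 1) + i)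
    have k1 := lam_bd hM hc.1 hc.2
    obtain ⟨rfl, k2⟩ := split_eq k1.1 k1.2.1 i0 i1 e
    exact ⟨c, hc.1, hc.2, k2, by simpa using hA⟩
  · intro c c' k1 k2 k3 k4 k5 k6 k7 k8
    have := (T_inj hM (same k7 k8 ⟨k1, k2⟩ ⟨k3, k4⟩ (by ring) (by rw [k5, k6]; ring))).1
    omega

theorem main (k : ℕ) : ∃ C : Set E, IsBody C ∧ IsConnected C ∧ IsConnected Cᶜ ∧ IsDiscChain C ∧
    Surrounded C k ∧ ¬Tiles C :=
  have hM : (3 : ℤ) ≤ 2 * (5 * k + 5) + 1 := by omega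
  ⟨_, T_body hM 0 0, T_conn hM 0 0, T_compl hM, T_chain hM 0 0, surrounded_T k,
    not_tiles_T (by omega)⟩

end Pool.Agent.P.MP_6145c0_co.Chain
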