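import Pool.Agent.P.MP_6145c0_co.Cells

/-! An isometry carrying infinitely many points of one cubic arc to another is a translation. -/

set_option autoImplicit false

open Set Metric Filter Topology

noncomputable section

namespace Pool.Agent.P.MP_6145c0_co.Chain

lemma coeffs_zero (k : Fin 10 → ℝ) {S : Set ℝ} (hS : S.Infinite)
    (h : ∀ u ∈ S, ∑ i : Fin 10, k i * u ^ (i : ℕ) = 0) (j : Fin 10) : k j = 0 := by
  have h1 : (∑ i : Fin 10, Polynomial.monomial (i : ℕ) (k i)) = 0 := by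
    refine Polynomial.eq_zero_of_infinite_isRoot _ (hS.mono fun u hu => ?_)
    simpa [Polynomial.eval_finsetSum] using h u hu
  have h2 := congrArg (fun p => Polynomial.coeff p j) h1
  simp only [Polynomial.finsetSum_coeff, Polynomial.coeff_monomial, Polynomial.coeff_zero,
    Fin.val_inj] at h2
  simpa using h2

lemma iso_coords (g : E ≃ᵢ E) : ∃ a b c d s t : ℝ, a ^ 2 + c ^ 2 = 1 ∧ b ^ 2 + d ^ 2 = 1 ∧
    a * b + c * d = 0 ∧ ∀ x y, g (pq x y) = pq (a * x + b * y + s) (c * x + d * y + t) := by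
  let Λ := g.toRealLinearIsometryEquiv
  have hΛ : ∀ p, g p = Λ p + g 0 := fun p => by simp [Λ]
  have hn : ∀ p : E, (Λ p 0) ^ 2 + (Λ p 1) ^ 2 = p 0 ^ 2 + p 1 ^ 2 := fun p => by
    have := congrArg (· ^ 2) (Λ.norm_map p)
    simpa only [EuclideanSpace.norm_sq_eq, Fin.sum_univ_two, Real.norm_eq_abs, sq_abs] using this
  have hl : ∀ x y, Λ (pq x y) = x • Λ (pq 1 0) + y • Λ (pq 0 1) := fun x y => by
    rw [← map_smul, ← map_smul, ← map_add]
    congr 1
    exact ext2 (by simp) (by simp)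
  have h1 := hn (pq 1 0)
  have h2 := hn (pq 0 1)
  have h3 := hn (pq 1 1)
  rw [hl] at h3
  simp only [pq0, pq1, one_smul, PiLp.add_apply] at h1 h2 h3
  refine ⟨Λ (pq 1 0) 0, Λ (pq 0 1) 0, Λ (pq 1 0) 1, Λ (pq 0 1) 1, g 0 0, g 0 1, by linarith,
    by linarith, by nlinarith, fun x y => ?_⟩
  rw [hΛ, hl]
  exact ext2 (by simp; ring) (by simp; ring)

lemma rigid_line (g : E ≃ᵢ E) (n r m : ℝ) {κ : ℝ} (hκ : 0 < κ) :
    {u : ℝ | g (pq (n + u) (r + κ * cub u)) 0 = m}.Finite := by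
  obtain ⟨a, b, c, d, s, t, h1, h2, h3, hg⟩ := iso_coords g
  by_contra hS
  have := coeffs_zero ![a * n + b * r + s - m, a + b * κ, 0, -(b * κ), 0, 0, 0, 0, 0, 0] hS
    fun u hu => by
      simp only [mem_ofPred_eq, hg, pq0, cub] at hu
      simp only [Fin.sum_univ_succ]
      simp
      linear_combination hu
  have e1 : a + b * κ = 0 := this 1
  have e3 : -(b * κ) = 0 := this 3
  have hb : b = 0 := by simpa [hκ.ne'] using e3
  have ha : a = 0 := by simpa [hb] using e1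
  subst hb ha
  have : c ^ 2 * d ^ 2 = (c * d) ^ 2 := by ring
  nlinarith

lemma rigid_arc (g : E ≃ᵢ E) (n r n' r' : ℝ) {κ κ' : ℝ} (hκ : 0 < κ) (hκ' : 0 < κ')
    (hS : {u : ℝ | 0 < u ∧ n' ≤ g (pq (n + u) (r + κ * cub u)) 0 ∧
      g (pq (n + u) (r + κ * cub u)) 1 =
        r' + κ' * cub (g (pq (n + u) (r + κ * cub u)) 0 - n')}.Infinite) :
    κ = κ' ∧ ∀ p, g p = p + pq (n' - n) (r' - r) := by
  obtain ⟨a, b, c, d, s, t, h1, h2, h3, hg⟩ := iso_coords g
  obtain ⟨α, hα⟩ : ∃ α, α = a * n + b * r + s - n' := ⟨_, rfl⟩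
  obtain ⟨β, hβ⟩ : ∃ β, β = a + b * κ := ⟨_, rfl⟩
  obtain ⟨γ, hγ⟩ : ∃ γ, γ = -(b * κ) := ⟨_, rfl⟩
  have hX : ∀ u, g (pq (n + u) (r + κ * cub u)) 0 - n' = α + β * u + γ * u ^ 3 := fun u => by
    simp only [hg, pq0, cub, hα, hβ, hγ]; ring
  have := coeffs_zero ![κ' * (α - α ^ 3) - (c * n + d * r + t - r'),
    κ' * (β - 3 * α ^ 2 * β) - (c + d * κ), -(3 * κ' * α * β ^ 2),
    κ' * (γ - β ^ 3 - 3 * α ^ 2 * γ) + d * κ, -(6 * κ' * α * β * γ), -(3 * κ' * β ^ 2 * γ),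
    -(3 * κ' * α * γ ^ 2), -(3 * κ' * β * γ ^ 2), 0, -(κ' * γ ^ 3)] hS
    fun u hu => by
      have h := hu.2.2
      rw [hX, hg, pq1] at h
      simp only [cub] at h
      simp only [Fin.sum_univ_succ]
      simp
      linear_combination -h
  have e0 : κ' * (α - α ^ 3) - (c * n + d * r + t - r') = 0 := this 0
  have e2 : -(3 * κ' * α * β ^ 2) = 0 := this 2
  have e3 : κ' * (γ - β ^ 3 - 3 * α ^ 2 * γ) + d * κ = 0 := this 3
  have e9 : -(κ' * γ ^ 3) = 0 := this 9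
  have hγ0 : γ = 0 := by simpa [hκ'.ne'] using e9
  have hb : b = 0 := by simpa [hγ, hκ.ne'] using hγ0
  subst hb
  have hd : d ^ 2 = 1 := by linarith
  have hc : c = 0 := by
    have : c * d ^ 2 = (c * d) * d := by ring
    rw [hd, show c * d = 0 by linarith] at this
    linarith
  subst hc
  have ha : a ^ 2 = 1 := by linarith
  have hβ' : β = a := by rw [hβ]; ring
  have hα0 : α = 0 := by
    rw [hβ', ha] at e2
    simpa [hκ'.ne'] using e2
  have ha1 : a = 1 := by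
    obtain ⟨u, hu0, hu, -⟩ := hS.nonempty
    have h5 := hX u
    rw [hα0, hγ0, hβ'] at h5
    have h6 : 0 ≤ a * u := by linarith
    have h7 : 0 ≤ a := nonneg_of_mul_nonneg_left h6 hu0
    nlinarith
  rw [hγ0, hβ', hα0, ha1] at e3
  have hd1 : d = 1 := by
    have h5 : 0 < d * κ := by linarith
    have h6 : 0 < d := (mul_pos_iff_of_pos_right hκ).1 h5
    nlinarith
  subst hd1 ha1
  rw [hα0] at e0 hα
  refine ⟨by linarith, fun p => ?_⟩
  rw [← pq_eta p, hg]
  exact ext2 (by simp; linarith) (by simp; linarith)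

end Pool.Agent.P.MP_6145c0_co.Chain
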