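import Pool.Agent.P.MP_6145c0_co.Rigid
import Pool.Agent.P.MP_6145c0_co.Comb

/-! The chain of cells: topology and the surroundings. -/

set_option autoImplicit false

open Set Metric Filter Topology

noncomputable section

namespace Pool.Agent.P.MP_6145c0_co.Chain

/-- the cell of the tile at position `(a, b)` in its column `c` -/
def cell (M a b c : ℤ) : Set E := Kc (M + 1) (c + a) ((rho M c + b) * (M + 1) + lam M c)

/-- the open cell -/
def ocell (M a b c : ℤ) : Set E := Oc (M + 1) (c + a) ((rho M c + b) * (M + 1) + lam M c)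

/-- the tile at position `(a, b)` -/
def T (M a b : ℤ) : Set E := ⋃ c ∈ Icc 0 (4 * M + 3), cell M a b c

variable {M : ℤ}

lemma T_closure (hM : 3 ≤ M) (a b : ℤ) :
    T M a b = closure (⋃ c ∈ Icc 0 (4 * M + 3), ocell M a b c) := by
  rw [(finite_Icc _ _).closure_biUnion]
  simp only [T, cell, ocell, closure_Oc (show 0 < M + 1 by omega)]

lemma open_o (a b : ℤ) : IsOpen (⋃ c ∈ Icc 0 (4 * M + 3), ocell M a b c) :=
  isOpen_biUnion fun _ _ => Oc_open _ _ _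

lemma ocell_sub {a b c : ℤ} (hc : c ∈ Icc 0 (4 * M + 3)) : ocell M a b c ⊆ interior (T M a b) :=
  interior_maximal ((Oc_sub _ _ _).trans (subset_biUnion_of_mem (u := cell M a b) hc))
    (Oc_open _ _ _)

lemma ocell_ne (hM : 3 ≤ M) (a b c : ℤ) : (ocell M a b c).Nonempty :=
  Oc_nonempty (by omega) _ _

lemma zero_mem (hM : 3 ≤ M) : (0 : ℤ) ∈ Icc 0 (4 * M + 3) := ⟨le_rfl, by omega⟩

lemma T_body (hM : 3 ≤ M) (a b : ℤ) : IsBody (T M a b) := by
  have hc : IsCompact (T M a b) :=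
    (finite_Icc _ _).isCompact_biUnion fun c _ => Kc_compact (by omega) _ _
  refine ⟨((ocell_ne hM a b 0).mono (ocell_sub (zero_mem hM))).mono interior_subset, hc, ?_⟩
  refine Subset.antisymm ?_ (closure_minimal interior_subset hc.isClosed)
  conv_lhs => rw [T_closure hM]
  exact closure_mono (iUnion₂_subset fun c hc => ocell_sub hc)

lemma mem_T_add (hM : 3 ≤ M) (a b : ℤ) (p : E) : p + pq a b ∈ T M a b ↔ p ∈ T M 0 0 := by
  simp only [T, cell, mem_iUnion, add_zero]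
  refine exists_congr fun c => exists_congr fun _ => ?_
  rw [← mem_Kc_add (show 0 < M + 1 by omega) c _ a b]
  congr! 2
  ring

lemma T_eq (hM : 3 ≤ M) (a b : ℤ) : T M a b = IsometryEquiv.addRight (pq a b) '' T M 0 0 := by
  ext x
  obtain ⟨y, rfl⟩ : ∃ y, x = y + pq a b := ⟨x - pq a b, by simp⟩
  simp [mem_T_add hM]

lemma of_mem_Oc (hM : 3 ≤ M) {n z a b : ℤ} {p : E} (h : p ∈ Oc (M + 1) n z) (h' : p ∈ T M a b) :
    ∃ c ∈ Icc 0 (4 * M + 3), c + a = n ∧ (rho M c + b) * (M + 1) + lam M c = z := by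
  obtain ⟨c, hc, h2⟩ := mem_iUnion₂.1 h'
  exact ⟨c, hc, cell_eq (by omega) h h2⟩

lemma split_eq {r r' i i' : ℤ} (h0 : 0 ≤ i) (h1 : i ≤ M) (h2 : 0 ≤ i') (h3 : i' ≤ M)
    (h : r * (M + 1) + i = r' * (M + 1) + i') : r = r' ∧ i = i' := by
  have a := dm (L := M + 1) r h0 (by omega)
  have b := dm (L := M + 1) r' h2 (by omega)
  rw [h] at a
  exact ⟨a.1.symm.trans b.1, a.2.symm.trans b.2⟩

lemma T_inj (hM : 3 ≤ M) {a b a' b' : ℤ} (h : T M a b = T M a' b') : a = a' ∧ b = b' := by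
  obtain ⟨p, hp⟩ := ocell_ne hM a b 0
  obtain ⟨q, hq⟩ := ocell_ne hM a' b' 0
  obtain ⟨c, hc, h1, h2⟩ := of_mem_Oc hM hp (h ▸ interior_subset (ocell_sub (zero_mem hM) hp))
  obtain ⟨c', hc', h3, -⟩ := of_mem_Oc hM hq (h ▸ interior_subset (ocell_sub (zero_mem hM) hq))
  obtain rfl : c = 0 := by have := hc.1; have := hc'.1; omega
  have k := lam_bd hM le_rfl (zero_mem hM).2
  have := (split_eq k.1 k.2.1 k.1 k.2.1 h2).1
  omega

lemma meet_T (hM : 3 ≤ M) {a b a' b' : ℤ}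
    (h : ¬Disjoint (interior (T M a b)) (interior (T M a' b'))) :
    ∃ c ∈ Icc 0 (4 * M + 3), ∃ c' ∈ Icc 0 (4 * M + 3), c' + a' = c + a ∧
      rho M c' + b' = rho M c + b ∧ lam M c' = lam M c := by
  rw [T_closure hM, T_closure hM] at h
  obtain ⟨p, h1, h2⟩ := meet_of_interior (open_o a b) h
  obtain ⟨c, hc, h3⟩ := mem_iUnion₂.1 h1
  obtain ⟨c', hc', h4⟩ := mem_iUnion₂.1 h2
  have h5 := cell_eq (by omega) h3 (Oc_sub _ _ _ h4)
  have k := lam_bd hM hc.1 hc.2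
  have k' := lam_bd hM hc'.1 hc'.2
  exact ⟨c, hc, c', hc', h5.1, split_eq k'.1 k'.2.1 k.1 k.2.1 h5.2⟩

lemma corner (L n z : ℤ) {y : ℝ} (e : ℤ) (he : e = n ∨ e = n + 1) :
    pq e y ∈ Kc L n z ↔ ((z / L : ℤ) : ℝ) ≤ y ∧ y ≤ ((z + 1) / L : ℤ) := by
  rcases he with rfl | rfl <;> simp [Kc, F, cub_zero, cub_one]

lemma side (hM : 3 ≤ M) (a b : ℤ) {c : ℤ} (hc : c ∈ Icc 0 (4 * M + 3)) {y : ℝ} (e : ℤ)
    (he : e = c + a ∨ e = c + a + 1) : pq e y ∈ cell M a b c ↔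
      ((rho M c + b : ℤ) : ℝ) ≤ y ∧
        y ≤ (rho M c + b + if lam M c = M then 1 else 0 : ℤ) := by
  have k := lam_bd hM hc.1 hc.2
  rw [cell, corner _ _ _ e he, (dm _ k.1 (by omega)).1]
  split_ifs with h
  · rw [h, add_assoc, show (rho M c + b) * (M + 1) + (M + 1) = (rho M c + b + 1) * (M + 1) by ring,
      Int.mul_ediv_cancel _ (by omega)]
  · rw [add_assoc, (dm _ (by omega) (by omega)).1, add_zero]

lemma cell_x {a b c : ℤ} {p : E} (h : p ∈ cell M a b c) :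
    (c : ℝ) + a ≤ p 0 ∧ p 0 ≤ c + a + 1 := by
  have h1 := h.1
  have h2 := h.2.1
  push_cast at h1 h2
  exact ⟨h1, h2⟩

lemma cell_inter (hM : 3 ≤ M) (a b : ℤ) {c : ℤ} (h0 : 0 ≤ c) (h1 : c + 1 ≤ 4 * M + 3) :
    cell M a b c ∩ cell M a b (c + 1) = {pq (c + a + 1 : ℤ) (rho M (c + 1) + b : ℤ)} := by
  have s1 := fun y => side hM a b (c := c) ⟨h0, by omega⟩ (y := y) (c + a + 1) (Or.inr rfl)
  have s2 := fun y => side hM a b (c := c + 1) ⟨by omega, h1⟩ (y := y) (c + a + 1)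
    (Or.inl (by ring))
  have k := consec hM h1
  ext p
  constructor
  · rintro ⟨h2, h3⟩
    have e : p 0 = (c + a + 1 : ℤ) := by
      have := cell_x h2
      have := cell_x h3
      push_cast at *
      linarith
    rw [← pq_eta p, e] at h2 h3
    rw [s1] at h2
    rw [s2] at h3
    refine ext2 e (le_antisymm ?_ h3.1)
    rcases k with k | k
    · rw [if_neg k.1.ne, add_zero, ← k.2] at h2
      exact h2.2
    · rw [if_neg k.2.1.ne, add_zero] at h3
      exact h3.2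
  · rintro rfl
    rw [mem_inter_iff, s1, s2]
    norm_cast
    split_ifs <;> omega

lemma T_conn (hM : 3 ≤ M) (a b : ℤ) : IsConnected (T M a b) :=
  IsConnected.biUnion_of_chain ⟨0, zero_mem hM⟩ ordConnected_Icc
    (fun _ _ => Kc_connected (by omega) _ _) fun c h0 h1 => by
      rw [Order.succ_eq_add_one] at h1 ⊢
      rw [cell_inter hM a b h0.1 h1.2]
      exact singleton_nonempty _

lemma T_chain (hM : 3 ≤ M) (a b : ℤ) : IsDiscChain (T M a b) := by
  refine ⟨(4 * M + 4).toNat, fun i => cell M a b i, ?_, fun i _ => Kc_disc (by omega) _ _,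
    fun i hi => ⟨_, by push_cast; exact cell_inter hM a b (by omega) (by omega)⟩,
    fun i j hij _ => disjoint_left.2 fun p h1 h2 => ?_⟩
  · ext p
    simp only [T, mem_iUnion]
    constructor
    · rintro ⟨c, hc, h⟩
      obtain ⟨i, rfl⟩ := Int.eq_ofNat_of_zero_le hc.1
      exact ⟨i, by have := hc.2; omega, h⟩
    · rintro ⟨i, hi, h⟩
      exact ⟨i, ⟨by omega, by omega⟩, h⟩
  · have := cell_x h1
    have := cell_x h2
    have : (i : ℝ) + 2 ≤ j := by exact_mod_cast hij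
    push_cast at *
    linarith

lemma T_bd (hM : 3 ≤ M) {a b : ℤ} {p : E} (h : p ∈ T M a b) :
    (a : ℝ) ≤ p 0 ∧ p 0 ≤ a + 4 * M + 4 ∧ (b : ℝ) ≤ p 1 ∧ p 1 ≤ b + 7 / 2 := by
  obtain ⟨c, hc, h1⟩ := mem_iUnion₂.1 h
  have k := lam_bd hM hc.1 hc.2
  have h2 := cell_x h1
  have h3 := row_bd _ k.1 (by omega) h1
  have k1 : (0 : ℝ) ≤ c := by exact_mod_cast hc.1
  have k2 : (c : ℝ) ≤ 4 * M + 3 := by exact_mod_cast hc.2
  have k3 : (0 : ℝ) ≤ rho M c := by exact_mod_cast k.2.2.1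
  have k4 : (rho M c : ℝ) ≤ 2 := by exact_mod_cast k.2.2.2
  push_cast at h3
  exact ⟨by linarith, by linarith, by linarith, by linarith⟩

lemma Kc_between {L n z : ℤ} {x y1 y y2 : ℝ} (h1 : pq x y1 ∈ Kc L n z) (h2 : pq x y2 ∈ Kc L n z)
    (h3 : y1 ≤ y) (h4 : y ≤ y2) : pq x y ∈ Kc L n z :=
  ⟨h1.1, h1.2.1, h1.2.2.1.trans h3, h4.trans h2.2.2.2⟩

lemma T_between (hM : 3 ≤ M) {a b : ℤ} {x y1 y y2 : ℝ} (h1 : pq x y1 ∈ T M a b)
    (h2 : pq x y2 ∈ T M a b) (h3 : y1 ≤ y) (h4 : y ≤ y2) : pq x y ∈ T M a b := by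
  obtain ⟨c, hc, k1⟩ := mem_iUnion₂.1 h1
  obtain ⟨d, hd, k2⟩ := mem_iUnion₂.1 h2
  have x1 := cell_x k1
  have x2 := cell_x k2
  simp only [pq0] at x1 x2
  obtain ⟨w, w1, w2⟩ : ∃ w, pq x w ∈ cell M a b c ∧ pq x w ∈ cell M a b d := by
    have e1 : (c : ℝ) ≤ d + 1 := by linarith
    have e2 : (d : ℝ) ≤ c + 1 := by linarith
    have e1 : c ≤ d + 1 := by exact_mod_cast e1
    have e2 : d ≤ c + 1 := by exact_mod_cast e2
    rcases (show c = d ∨ c = d + 1 ∨ d = c + 1 by omega) with rfl | rfl | rfl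
    · exact ⟨y1, k1, k1⟩
    · have := (cell_inter hM a b hd.1 hc.2).ge (mem_singleton _)
      obtain rfl : x = (d + a + 1 : ℤ) := by push_cast at *; linarith
      exact ⟨_, this.2, this.1⟩
    · have := (cell_inter hM a b hc.1 hd.2).ge (mem_singleton _)
      obtain rfl : x = (c + a + 1 : ℤ) := by push_cast at *; linarith
      exact ⟨_, this.1, this.2⟩
  rcases le_total y w with h | h
  · exact mem_biUnion hc (Kc_between k1 w1 h3 h)
  · exact mem_biUnion hd (Kc_between w2 k2 h h4)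

lemma half_pre (i : Fin 2) (s t : ℝ) : IsPreconnected {p : E | s * p i < t} := by
  refine Convex.isPreconnected fun x hx y hy u v hu hv huv => ?_
  simp only [mem_ofPred_eq, PiLp.add_apply, PiLp.smul_apply, smul_eq_mul] at *
  obtain rfl : v = 1 - u := by linarith
  rcases le_total (s * x i) (s * y i) with h | h <;> nlinarith

lemma T_compl (hM : 3 ≤ M) : IsConnected (T M 0 0)ᶜ := by
  let W : Set E := ({p : E | 1 * p 0 < -1} ∪ {p : E | 1 * p 1 < -1}) ∪ {p : E | -1 * p 1 < -4}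
  have hW : IsPreconnected W :=
    ((half_pre 0 1 (-1)).union (pq (-2) (-2)) (by simp) (by simp) (half_pre 1 1 (-1))).union
      (pq (-2) 5) (Or.inl (by simp)) (by simp; norm_num) (half_pre 1 (-1) (-4))
  have hWs : W ⊆ (T M 0 0)ᶜ := by
    intro p hp h
    have := T_bd hM h
    simp only [W, mem_union, mem_ofPred_eq, Int.cast_zero] at hp this
    rcases hp with (hp | hp) | hp <;> linarith
  have h0 : pq (-2) 0 ∈ W := Or.inl (Or.inl (by simp))
  refine ⟨⟨_, hWs h0⟩, isPreconnected_of_forall (pq (-2) 0) fun p hp => ?_⟩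
  have ray : ∀ S : Set ℝ, IsPreconnected S → p 1 ∈ S → (∀ y ∈ S, pq (p 0) y ∉ T M 0 0) →
      (∃ y ∈ S, pq (p 0) y ∈ W) →
      ∃ t, t ⊆ (T M 0 0)ᶜ ∧ pq (-2) 0 ∈ t ∧ p ∈ t ∧ IsPreconnected t := by
    rintro S h1 h2 h3 ⟨y, h4, h5⟩
    refine ⟨W ∪ pq (p 0) '' S, union_subset hWs ?_, Or.inl h0, Or.inr ⟨_, h2, pq_eta p⟩,
      hW.union _ h5 ⟨y, h4, rfl⟩ (h1.image _ (cont_pq continuous_const continuous_id).continuousOn)⟩
    rintro _ ⟨z, hz, rfl⟩
    exact h3 z hz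
  by_cases h : ∀ y ∈ Ici (p 1), pq (p 0) y ∉ T M 0 0
  · refine ray _ isPreconnected_Ici self_mem_Ici h ⟨max (p 1) 5, mem_Ici.2 (le_max_left _ _), Or.inr ?_⟩
    have := le_max_right (p 1) 5
    simp only [mem_ofPred_eq, pq1]
    linarith
  · push Not at h
    obtain ⟨y2, h1, h2⟩ := h
    refine ray _ isPreconnected_Iic self_mem_Iic (fun y hy h3 => hp ?_)
      ⟨min (p 1) (-2), mem_Iic.2 (min_le_left _ _), Or.inl (Or.inr ?_)⟩
    · exact pq_eta p ▸ T_between hM h3 h2 hy h1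
    · have := min_le_right (p 1) (-2)
      simp only [mem_ofPred_eq, pq1]
      linarith

lemma sub_T {n r i c : ℤ} (hc : c ∈ Icc 0 (4 * M + 3)) (h : lam M c = i) :
    Kc (M + 1) n (r * (M + 1) + i) ⊆ T M (n - c) (r - rho M c) := by
  refine Subset.trans ?_ (subset_biUnion_of_mem (u := cell M _ _) hc)
  simp [cell, h]

theorem surrounded_T (k : ℕ) : Surrounded (T (2 * (5 * k + 5) + 1) 0 0) k := by
  obtain ⟨h, hh⟩ : ∃ h : ℤ, h = 5 * k + 5 := ⟨_, rfl⟩
  rw [← hh]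
  obtain ⟨M, hM'⟩ : ∃ M : ℤ, M = 2 * h + 1 := ⟨_, rfl⟩
  have hM : 3 ≤ M := by omega
  have loc := fun (n r i : ℤ) => local_sol (h := h) (by omega) n (r := r) (i := i)
  have per := tau_add h
  rw [← hM'] at loc per ⊢
  let I : ℕ → Set (ℤ × ℤ) := fun i =>
    {v | tau h v.1 v.2 ∧ |v.1| ≤ 8 * i * M ∧ |v.2| ≤ 5 * i}
  refine ⟨fun i => (fun v => T M v.1 v.2) '' I i, ?_, fun i hi => ⟨?_, ?_, ?_⟩,
    fun i hi => ⟨?_, ?_⟩⟩
  · have : I 0 = {(0, 0)} := by
      ext ⟨a, b⟩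
      simp only [I, mem_ofPred_eq, Nat.cast_zero, mul_zero, zero_mul, abs_nonpos_iff,
        mem_singleton_iff, Prod.mk.injEq]
      exact ⟨fun h => h.2, fun ⟨h1, h2⟩ => ⟨by rw [h1, h2]; exact tau_zero (by omega), h1, h2⟩⟩
    simp only [this, image_singleton]
  · refine Finite.image _ (((finite_Icc (-(8 * i * M)) (8 * i * M)).prod
      (finite_Icc (-(5 * i : ℤ)) (5 * i))).subset fun v hv => ⟨abs_le.1 hv.2.1, abs_le.1 hv.2.2⟩)
  · rintro _ ⟨v, -, rfl⟩
    exact ⟨_, T_eq hM v.1 v.2⟩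
  · rintro _ ⟨⟨a, b⟩, hv, rfl⟩ _ ⟨⟨a', b'⟩, hw, rfl⟩ hne
    by_contra hd
    obtain ⟨c, hc, c', hc', e1, e2, e3⟩ := meet_T hM hd
    have k := lam_bd hM hc.1 hc.2
    have b1 := abs_le.1 hv.2.2
    simp only at b1 e1 e2 hne
    have := (loc (c + a) (rho M c + b) (lam M c) (by omega) (by omega) k.1 k.2.1).2 c c' hc.1 hc.2
      hc'.1 hc'.2 rfl e3 (by simpa using hv.1) (by rw [← e1, ← e2]; simpa using hw.1)
    subst this
    exact hne (by rw [show a = a' by omega, show b = b' by omega])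
  · have hpos : (0 : ℤ) ≤ 8 * (i + 1) * M := by positivity
    refine ⟨image_mono fun v hv => ⟨hv.1, hv.2.1.trans ?_, hv.2.2.trans (by omega)⟩, fun hs => ?_⟩
    · push_cast; nlinarith
    · obtain ⟨⟨a, b⟩, hv, e⟩ := hs ⟨(0 + 8 * (i + 1) * M, 0), ⟨(per _ _ _).2 (tau_zero (by omega)),
        by simp [abs_of_nonneg hpos], by simp; positivity⟩, rfl⟩
      have e1 := (T_inj hM e).1
      have e2 := (abs_le.1 hv.2.1).2
      simp only at e1 e2
      nlinarith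
  · rintro _ ⟨⟨a, b⟩, hv, rfl⟩
    rw [closure_compl, disjoint_comm, ← subset_compl_iff_disjoint_right, compl_compl]
    intro x hx
    refine mem_interior_iff_mem_nhds.2 (mem_of_superset (ball_mem_nhds x one_pos) fun y hy => ?_)
    obtain ⟨n, z, hz⟩ := exists_cell (show 0 < M + 1 by omega) y
    obtain ⟨r, j, j0, j1, rfl⟩ := dm_ex (show 0 < M + 1 by omega) z
    have x1 := T_bd hM hx
    have y1 := row_bd r j0 j1 hz
    have d0 := abs_lt.1 ((abs_sub_le_dist y x 0).trans_lt hy)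
    have d1 := abs_lt.1 ((abs_sub_le_dist y x 1).trans_lt hy)
    simp only at x1
    have r1 : (r : ℝ) < b + 5 := by linarith
    have r2 : (b : ℝ) < r + 3 := by linarith
    have n1 : (n : ℝ) < a + 4 * M + 5 := by linarith [hz.1]
    have n2 : (a : ℝ) < n + 2 := by linarith [hz.2.1]
    have r1 : r < b + 5 := by exact_mod_cast r1
    have r2 : b < r + 3 := by exact_mod_cast r2
    have n1 : n < a + 4 * M + 5 := by exact_mod_cast n1
    have n2 : a < n + 2 := by exact_mod_cast n2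
    have b1 := abs_le.1 hv.2.2
    have a1 := abs_le.1 hv.2.1
    simp only at a1 b1
    obtain ⟨c, c0, c1, c2, c3⟩ := (loc n r j (by omega) (by omega) j0 (by omega)).1
    have k := lam_bd hM c0 c1
    refine ⟨_, ⟨(n - c, r - rho M c), ⟨c3, abs_le.2 ?_, abs_le.2 ?_⟩, rfl⟩, sub_T ⟨c0, c1⟩ c2 hz⟩
    · have : (8 * (i + 1 : ℕ) * M : ℤ) = 8 * i * M + 8 * M := by push_cast; ring
      simp only [this]
      omega
    · simp only
      omega

end Pool.Agent.P.MP_6145c0_co.Chain
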